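import Mathlib
import Pool.Agent.H.MP_801c54_lc.A

set_option autoImplicit false

namespace Pool.Agent.Results.MP_801c54_lc.Yes

/-- ONE has a winning strategy in the game with boards indexed by K and payoff set S -/
def OneWins (K : Type) (S : Set (ℕ → ℕ)) : Prop :=
  ∃ σ : List (K → ℕ) → (K → ℕ), ∀ f : ℕ → K → ℕ,
    (∀ n : ℕ, f (2 * n) = σ (List.ofFn fun i : Fin (2 * n) => f i)) →
      ∃ a : K, (fun n : ℕ => f n a) ∈ S

/-- TWO has a winning strategy in the game with boards indexed by K and payoff set S -/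
def TwoWins (K : Type) (S : Set (ℕ → ℕ)) : Prop :=
  ∃ τ : List (K → ℕ) → (K → ℕ), ∀ f : ℕ → K → ℕ,
    (∀ n : ℕ, f (2 * n + 1) = τ (List.ofFn fun i : Fin (2 * n + 1) => f i)) →
      ∀ a : K, (fun n : ℕ => f n a) ∉ S

theorem result : ∃ S : Set (ℕ → ℕ),
    (∀ K : Type, Uncountable K → OneWins K S) ∧
    (OneWins ℝ S ∨ TwoWins ℝ S) ∧ ¬ (OneWins ℕ S ∨ TwoWins ℕ S) := by
  obtain ⟨T, hT⟩ := H.MP_801c54_lc.one_not
  refine ⟨H.MP_801c54_lc.Pay T, fun K _ => H.MP_801c54_lc.one_wins T,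
    Or.inl (H.MP_801c54_lc.one_wins T), ?_⟩
  rintro (h | h)
  · exact hT h
  · exact H.MP_801c54_lc.two_not T h

end Pool.Agent.Results.MP_801c54_lc.Yes
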